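import Mathlib

/-!
Closed bounded convex sets with empty interior in a separable reflexive space: nearly supporting
functionals which tend weakly to zero.
-/

set_option autoImplicit false

namespace Pool.Agent.U320.HN

open Set Filter Topology TopologicalSpace

variable {X : Type*} [NormedAddCommGroup X] [NormedSpace ℝ X]

/-- A point of `C` which is supported by no functional, apart from those constant on `C`. -/
theorem exists_quasi [CompleteSpace X] [SeparableSpace X] {C : Set X} (hc : IsClosed C)
    (hconv : Convex ℝ C) {D : ℝ} (hb : ∀ c ∈ C, ‖c‖ ≤ D) (hne : C.Nonempty) :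
    ∃ y ∈ C, ∀ f : X →L[ℝ] ℝ, (∀ c ∈ C, f c ≤ f y) → ∀ c ∈ C, f c = f y := by
  have : Nonempty C := hne.to_subtype
  have : SecondCountableTopology X := UniformSpace.secondCountable_of_separable X
  let u : ℕ → C := denseSeq C
  have hu : DenseRange u := denseRange_denseSeq C
  let w : ℕ → ℝ := fun n => (1 / 2) ^ (n + 1)
  have hw0 : ∀ n, 0 ≤ w n := fun n => by positivity
  have hws : HasSum w 1 := by
    have h := (hasSum_geometric_two).mul_right (1 / 2 : ℝ)
    have e1 : w = fun n => (1 / 2 : ℝ) ^ n * (1 / 2) := by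
      funext n; simp only [w, pow_succ]
    have e2 : (2 : ℝ) * (1 / 2) = 1 := by norm_num
    rw [e2] at h
    rw [e1]
    exact h
  have hsum : Summable (fun n => w n • (u n : X)) := by
    refine Summable.of_norm_bounded (g := fun n => w n * D) (hws.summable.mul_right D) ?_
    intro n
    rw [norm_smul, Real.norm_of_nonneg (hw0 n)]
    exact mul_le_mul_of_nonneg_left (hb _ (u n).2) (hw0 n)
  set y : X := ∑' n, w n • (u n : X) with hy
  have hyC : y ∈ C := by
    have hlim : Tendsto (fun N => (∑ n ∈ Finset.range N, w n • (u n : X)) + (1 / 2 : ℝ) ^ N • (u 0 : X))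
        atTop (𝓝 (y + (0 : ℝ) • (u 0 : X))) := by
      refine hsum.hasSum.tendsto_sum_nat.add ?_
      exact (tendsto_pow_atTop_nhds_zero_of_lt_one (by norm_num) (by norm_num)).smul_const _
    rw [zero_smul, add_zero] at hlim
    refine hc.mem_of_tendsto hlim (Eventually.of_forall fun N => ?_)
    have hwN : ∑ n ∈ Finset.range N, w n = 1 - (1 / 2) ^ N := by
      induction N with
      | zero => simp
      | succ k ih => rw [Finset.sum_range_succ, ih]; simp only [w]; ring
    have key := hconv.sum_mem (t := Finset.range (N + 1))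
      (w := fun n => if n < N then w n else (1 / 2) ^ N)
      (z := fun n => if n < N then (u n : X) else (u 0 : X)) ?_ ?_ ?_
    · rw [Finset.sum_range_succ] at key
      simp only [lt_irrefl, if_false] at key
      rw [Finset.sum_congr rfl (g := fun n => w n • (u n : X))] at key
      · exact key
      · intro n hn
        simp [Finset.mem_range.1 hn]
    · intro n _
      split_ifs
      · exact hw0 n
      · positivity
    · rw [Finset.sum_range_succ]
      simp only [lt_irrefl, if_false]
      rw [Finset.sum_congr rfl (g := w)]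
      · rw [hwN]; ring
      · intro n hn
        simp [Finset.mem_range.1 hn]
    · intro n _
      split_ifs
      · exact (u n).2
      · exact (u 0).2
  refine ⟨y, hyC, fun f hf => ?_⟩
  have hfy : HasSum (fun n => w n * f (u n)) (f y) := by
    have := hsum.hasSum.mapL f
    simpa using this
  have hfy' : HasSum (fun n => w n * f y) (f y) := by
    simpa using hws.mul_right (f y)
  have hdiff : HasSum (fun n => w n * (f y - f (u n))) 0 := by
    have := hfy'.sub hfy
    simpa [mul_sub] using this
  have hnn : ∀ n, 0 ≤ w n * (f y - f (u n)) := fun n =>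
    mul_nonneg (hw0 n) (sub_nonneg.2 (hf _ (u n).2))
  have hz := (hasSum_zero_iff_of_nonneg hnn).1 hdiff
  have heq : ∀ n, f (u n) = f y := by
    intro n
    have h1 := congrFun hz n
    simp only [Pi.zero_apply, mul_eq_zero] at h1
    rcases h1 with h1 | h1
    · have : (0 : ℝ) < w n := by positivity
      linarith
    · linarith
  intro c hcC
  have hclosed : IsClosed {c : C | f c = f y} :=
    isClosed_eq (f.continuous.comp continuous_subtype_val) continuous_const
  have : (Set.univ : Set C) ⊆ {c : C | f c = f y} := by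
    rw [← hu.closure_range]
    exact hclosed.closure_subset_iff.2 (by rintro _ ⟨n, rfl⟩; exact heq n)
  exact this (mem_univ (⟨c, hcC⟩ : C))

/-- Norm one functionals which nearly support `C` at `y`. -/
theorem exists_near_support {C : Set X} (hc : IsClosed C) (hconv : Convex ℝ C)
    (hint : interior C = ∅) {y : X} (hy : y ∈ C) {δ : ℝ} (hδ : 0 < δ) :
    ∃ f : X →L[ℝ] ℝ, ‖f‖ = 1 ∧ ∀ c ∈ C, f c ≤ f y + δ := by
  have hny : y ∉ interior C := by rw [hint]; exact fun h => h
  have hball : ¬ Metric.ball y δ ⊆ C := by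
    intro h
    exact hny (interior_maximal h Metric.isOpen_ball (Metric.mem_ball_self hδ))
  obtain ⟨z, hz, hzC⟩ := not_subset.1 hball
  obtain ⟨g, u, h1, h2⟩ := geometric_hahn_banach_closed_point hconv hc hzC
  have hg0 : g ≠ 0 := by
    rintro rfl
    have := h1 y hy
    simp at this h2
    linarith
  have hgn : 0 < ‖g‖ := norm_pos_iff.2 hg0
  refine ⟨‖g‖⁻¹ • g, ?_, fun c hcC => ?_⟩
  · rw [norm_smul, norm_inv, norm_norm, inv_mul_cancel₀ hgn.ne']
  · have h3 : g c ≤ g z := (h1 c hcC).le.trans h2.le
    have h4 : g z = g y + g (z - y) := by rw [map_sub]; ring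
    have h5 : g (z - y) ≤ ‖g‖ * δ := by
      calc g (z - y) ≤ ‖g (z - y)‖ := le_abs_self _
        _ ≤ ‖g‖ * ‖z - y‖ := g.le_opNorm _
        _ ≤ ‖g‖ * δ := by
          refine mul_le_mul_of_nonneg_left ?_ hgn.le
          rw [← dist_eq_norm]; exact (Metric.mem_ball.1 hz).le
    simp only [_root_.smul_apply, smul_eq_mul]
    have h6 : g c ≤ g y + ‖g‖ * δ := by linarith
    calc ‖g‖⁻¹ * g c ≤ ‖g‖⁻¹ * (g y + ‖g‖ * δ) := by
          exact mul_le_mul_of_nonneg_left h6 (by positivity)
      _ = ‖g‖⁻¹ * g y + δ := by field_simp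

/-- Nearly supporting functionals of norm one which are small at finitely many given vectors. -/
theorem exists_small_near_support {C : Set X} (hc : IsClosed C) (hconv : Convex ℝ C)
    (hint : interior C = ∅) {y : X} (hy : y ∈ C)
    (hq : ∀ f : X →L[ℝ] ℝ, (∀ c ∈ C, f c ≤ f y) → ∀ c ∈ C, f c = f y)
    (hnc : ∀ f : X →L[ℝ] ℝ, (∀ c ∈ C, f c = f y) → f = 0)
    (F : Finset X) {δ : ℝ} (hδ : 0 < δ) :
    ∃ f : X →L[ℝ] ℝ, ‖f‖ = 1 ∧ (∀ c ∈ C, f c ≤ f y + δ) ∧ ∀ v ∈ F, |f v| < δ := by
  by_contra hcon
  push Not at hcon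
  let t : ℕ → Set (WeakDual ℝ X) := fun n =>
    (WeakDual.toStrongDual ⁻¹' Metric.closedBall 0 1) ∩
      ((⋂ c ∈ C, {f : WeakDual ℝ X | f c ≤ f y + 1 / ((n : ℝ) + 1)}) ∩
        ⋃ v ∈ F, {f : WeakDual ℝ X | δ ≤ |f v|})
  have hev : ∀ v : X, Continuous fun f : WeakDual ℝ X => f v := fun v =>
    WeakDual.eval_continuous v
  have htc : ∀ n, IsClosed (t n) := by
    intro n
    refine (WeakDual.isClosed_closedBall 0 1).inter (IsClosed.inter ?_ ?_)
    · exact isClosed_biInter fun c _ => isClosed_le (hev c) ((hev y).add continuous_const)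
    · exact F.finite_toSet.isClosed_biUnion fun v _ =>
        isClosed_le continuous_const (continuous_abs.comp (hev v))
  have hmono : ∀ n, t (n + 1) ⊆ t n := by
    intro n f hf
    refine ⟨hf.1, ?_, hf.2.2⟩
    have h1 := hf.2.1
    simp only [mem_iInter, mem_ofPred_eq] at h1 ⊢
    intro c hcC
    refine (h1 c hcC).trans ?_
    have : 1 / (((n + 1 : ℕ) : ℝ) + 1) ≤ 1 / ((n : ℝ) + 1) := by
      apply one_div_le_one_div_of_le
      · positivity
      · push_cast; linarith
    linarith
  have hne : ∀ n, (t n).Nonempty := by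
    intro n
    have hp : (0 : ℝ) < min δ (1 / ((n : ℝ) + 1)) := lt_min hδ (by positivity)
    obtain ⟨f, hf1, hf2⟩ := exists_near_support hc hconv hint hy hp
    obtain ⟨v, hv, hv2⟩ := hcon f hf1 fun c hcC => (hf2 c hcC).trans
      (by linarith [min_le_left δ (1 / ((n : ℝ) + 1))])
    refine ⟨StrongDual.toWeakDual f, ?_, ?_, ?_⟩
    · simp only [mem_preimage, Metric.mem_closedBall, dist_zero_right]
      exact hf1.le
    · simp only [mem_iInter, mem_ofPred_eq]
      intro c hcC
      have := hf2 c hcC
      have h2 := min_le_right δ (1 / ((n : ℝ) + 1))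
      show f c ≤ f y + _
      linarith
    · simp only [mem_iUnion, mem_ofPred_eq]
      exact ⟨v, hv, hv2⟩
  have hcomp : IsCompact (t 0) :=
    (WeakDual.isCompact_closedBall (𝕜 := ℝ) (E := X) 0 1).of_isClosed_subset (htc 0)
      inter_subset_left
  obtain ⟨f, hf⟩ := IsCompact.nonempty_iInter_of_sequence_nonempty_isCompact_isClosed t hmono hne
    hcomp htc
  rw [mem_iInter] at hf
  have h1 : ∀ c ∈ C, (WeakDual.toStrongDual f) c ≤ (WeakDual.toStrongDual f) y := by
    intro c hcC
    refine le_of_forall_pos_le_add fun ε hε => ?_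
    obtain ⟨n, hn⟩ := exists_nat_one_div_lt hε
    have := (hf n).2.1
    simp only [mem_iInter, mem_ofPred_eq] at this
    have h2 := this c hcC
    show f c ≤ f y + ε
    linarith
  have h2 := hq _ h1
  have h3 := hnc _ h2
  obtain ⟨_, _, h4⟩ := hf 0
  simp only [mem_iUnion, mem_ofPred_eq] at h4
  obtain ⟨v, _, hv⟩ := h4
  have h5 : f v = 0 := by
    have : (WeakDual.toStrongDual f) v = 0 := by rw [h3]; rfl
    exact this
  rw [h5, abs_zero] at hv
  linarith

end Pool.Agent.U320.HN
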