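import Mathlib
import Pool.Agent.U320.HN.Dual

/-!
The sequence of nearly supporting functionals, convex combinations with small norm, and the
resulting finitely supported measures.
-/

set_option autoImplicit false

namespace Pool.Agent.U320.HN

open Set Filter Topology TopologicalSpace

variable {X : Type*} [NormedAddCommGroup X] [NormedSpace ℝ X]

theorem exists_seq [SeparableSpace X] {C : Set X} (hc : IsClosed C) (hconv : Convex ℝ C)
    (hint : interior C = ∅) {y : X} (hy : y ∈ C)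
    (hq : ∀ f : X →L[ℝ] ℝ, (∀ c ∈ C, f c ≤ f y) → ∀ c ∈ C, f c = f y)
    (hnc : ∀ f : X →L[ℝ] ℝ, (∀ c ∈ C, f c = f y) → f = 0) {ε : ℝ} (hε : 0 < ε) :
    ∃ (f : ℕ → X →L[ℝ] ℝ) (p : ℕ → X), (∀ n, ‖p n‖ ≤ 1) ∧ (∀ n, 1 / 2 ≤ f n (p n)) ∧
      (∀ n, ∀ c ∈ C, f n c ≤ f n y + ε) ∧ (∀ m n, m < n → |f n (p m)| ≤ 1 / 4) ∧
      ∀ z, Tendsto (fun n => f n z) atTop (𝓝 0) := by
  classical
  let v : ℕ → X := denseSeq X
  let P : ℕ × (X →L[ℝ] ℝ) × X → Prop := fun a =>
    ‖a.2.1‖ = 1 ∧ ‖a.2.2‖ ≤ 1 ∧ 1 / 2 ≤ a.2.1 a.2.2 ∧ (∀ c ∈ C, a.2.1 c ≤ a.2.1 y + ε) ∧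
      ∀ j ≤ a.1, |a.2.1 (v j)| < 1 / ((a.1 : ℝ) + 1)
  let r : ℕ × (X →L[ℝ] ℝ) × X → ℕ × (X →L[ℝ] ℝ) × X → Prop := fun a b =>
    a.1 < b.1 ∧ |b.2.1 a.2.2| ≤ 1 / 4
  obtain ⟨g, hg1, hg2⟩ := exists_seq_of_forall_finset_exists P r (by
    intro s _
    let k : ℕ := s.sup (fun a => a.1) + 1
    let F : Finset X := s.image (fun a => a.2.2) ∪ (Finset.range (k + 1)).image v
    have hδ : (0 : ℝ) < min (min ε (1 / ((k : ℝ) + 1))) (1 / 4) :=
      lt_min (lt_min hε (by positivity)) (by norm_num)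
    obtain ⟨f, hf1, hf2, hf3⟩ := exists_small_near_support hc hconv hint hy hq hnc F hδ
    have hd1 : min (min ε (1 / ((k : ℝ) + 1))) (1 / 4) ≤ ε :=
      (min_le_left _ _).trans (min_le_left _ _)
    have hd2 : min (min ε (1 / ((k : ℝ) + 1))) (1 / 4) ≤ 1 / ((k : ℝ) + 1) :=
      (min_le_left _ _).trans (min_le_right _ _)
    have hd3 : min (min ε (1 / ((k : ℝ) + 1))) (1 / 4) ≤ 1 / 4 := min_le_right _ _
    obtain ⟨p, hp1, hp2⟩ : ∃ p : X, ‖p‖ ≤ 1 ∧ 1 / 2 ≤ f p := by
      obtain ⟨x, hx1, hx2⟩ := ContinuousLinearMap.exists_lt_apply_of_lt_opNorm f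
        (r := 1 / 2) (by rw [hf1]; norm_num)
      rcases le_total 0 (f x) with h | h
      · refine ⟨x, hx1.le, ?_⟩
        rw [Real.norm_of_nonneg h] at hx2
        exact hx2.le
      · refine ⟨-x, by rw [norm_neg]; exact hx1.le, ?_⟩
        rw [Real.norm_of_nonpos h] at hx2
        rw [map_neg]; exact hx2.le
    refine ⟨(k, f, p), ⟨hf1, hp1, hp2, fun c hcC => (hf2 c hcC).trans (by linarith), ?_⟩, ?_⟩
    · intro j hj
      have : v j ∈ F := by
        refine Finset.mem_union_right _ (Finset.mem_image_of_mem _ ?_)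
        rw [Finset.mem_range]
        have : j ≤ k := hj
        omega
      exact (hf3 _ this).trans_le hd2
    · intro a ha
      refine ⟨?_, ?_⟩
      · have : a.1 ≤ s.sup (fun a => a.1) := Finset.le_sup (f := fun a => a.1) ha
        show a.1 < k
        omega
      · have : a.2.2 ∈ F := Finset.mem_union_left _ (Finset.mem_image_of_mem _ ha)
        exact (hf3 _ this).le.trans hd3)
  refine ⟨fun n => (g n).2.1, fun n => (g n).2.2, fun n => (hg1 n).2.1, fun n => (hg1 n).2.2.1,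
    fun n => (hg1 n).2.2.2.1, fun m n hmn => (hg2 m n hmn).2, ?_⟩
  have hmono : StrictMono fun n => (g n).1 := fun m n hmn => (hg2 m n hmn).1
  have hge : ∀ n, n ≤ (g n).1 := hmono.id_le
  intro z
  rw [Metric.tendsto_atTop]
  intro η hη
  obtain ⟨w, ⟨j, rfl⟩, hw⟩ : ∃ w ∈ range v, dist z w < η / 2 :=
    (denseRange_denseSeq X).exists_dist_lt z (half_pos hη) |>.imp (fun j hj => by
      exact hj) |> fun ⟨j, hj⟩ => ⟨v j, ⟨j, rfl⟩, hj⟩
  obtain ⟨N, hN⟩ := exists_nat_one_div_lt (half_pos hη)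
  refine ⟨max j N, fun n hn => ?_⟩
  have h1 : |(g n).2.1 (v j)| < 1 / (((g n).1 : ℝ) + 1) :=
    (hg1 n).2.2.2.2 j ((le_max_left j N).trans (hn.trans (hge n)))
  have h2 : 1 / (((g n).1 : ℝ) + 1) ≤ 1 / ((N : ℝ) + 1) := by
    apply one_div_le_one_div_of_le
    · positivity
    · have : N ≤ (g n).1 := (le_max_right j N).trans (hn.trans (hge n))
      have : (N : ℝ) ≤ ((g n).1 : ℝ) := by exact_mod_cast this
      linarith
  have h3 : |(g n).2.1 (z - v j)| ≤ η / 2 := by
    have h := (g n).2.1.le_opNorm (z - v j)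
    rw [(hg1 n).1, one_mul, ← dist_eq_norm] at h
    exact h.trans hw.le
  rw [Real.dist_eq, sub_zero]
  have h4 : (g n).2.1 z = (g n).2.1 (v j) + (g n).2.1 (z - v j) := by rw [map_sub]; ring
  show |(g n).2.1 z| < η
  rw [h4]
  refine (abs_add_le _ _).trans_lt ?_
  linarith

/-- Convex combinations with small coefficients and small norm of a weakly null sequence of
functionals on a reflexive space. -/
theorem exists_weights
    (hrefl : Function.Surjective (NormedSpace.inclusionInDoubleDual ℝ X))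
    (f : ℕ → X →L[ℝ] ℝ) (hf : ∀ z, Tendsto (fun n => f n z) atTop (𝓝 0)) {M : ℕ} (hM : 0 < M)
    {δ : ℝ} (hδ : 0 < δ) :
    ∃ a : ℕ →₀ ℝ, (∀ n, 0 ≤ a n) ∧ (∀ n, a n ≤ 1 / (M : ℝ)) ∧ (a.sum fun _ t => t) = 1 ∧
      ‖a.sum fun n t => t • f n‖ ≤ δ := by
  have hM' : (0 : ℝ) < M := by exact_mod_cast hM
  let W : Set (ℕ →₀ ℝ) := {a | (∀ n, 0 ≤ a n) ∧ (∀ n, a n ≤ 1 / (M : ℝ)) ∧
    (a.sum fun _ t => t) = 1}
  let L : (ℕ →₀ ℝ) →ₗ[ℝ] (StrongDual ℝ X) := Finsupp.linearCombination ℝ f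
  have hs : ∀ a : ℕ →₀ ℝ, (a.sum fun _ t => t) = Finsupp.linearCombination ℝ (fun _ : ℕ => (1 : ℝ)) a := by
    intro a
    rw [Finsupp.linearCombination_apply]
    simp
  have hW : Convex ℝ W := by
    intro a ha b hb s t hs0 ht0 hst
    refine ⟨fun n => ?_, fun n => ?_, ?_⟩
    · simp only [Finsupp.coe_add, Finsupp.coe_smul, Pi.add_apply, Pi.smul_apply, smul_eq_mul]
      have := ha.1 n; have := hb.1 n; positivity
    · simp only [Finsupp.coe_add, Finsupp.coe_smul, Pi.add_apply, Pi.smul_apply, smul_eq_mul]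
      have h1 := mul_le_mul_of_nonneg_left (ha.2.1 n) hs0
      have h2 := mul_le_mul_of_nonneg_left (hb.2.1 n) ht0
      calc s * a n + t * b n ≤ s * (1 / (M : ℝ)) + t * (1 / (M : ℝ)) := add_le_add h1 h2
        _ = 1 / (M : ℝ) := by rw [← add_mul, hst, one_mul]
    · have h1 := ha.2.2
      have h2 := hb.2.2
      rw [hs] at h1 h2 ⊢
      rw [map_add, map_smul, map_smul, h1, h2]
      simpa using hst
  have hK : Convex ℝ (closure (L '' W)) := (hW.linear_image L).closure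
  by_contra hcon
  push Not at hcon
  have h0 : (0 : StrongDual ℝ X) ∉ closure (L '' W) := by
    intro h
    obtain ⟨b, ⟨a, ha, rfl⟩, hb⟩ := Metric.mem_closure_iff.1 h δ hδ
    rw [dist_comm, dist_zero_right] at hb
    have := hcon a ha.1 ha.2.1 ha.2.2
    have e : L a = a.sum fun n t => t • f n := Finsupp.linearCombination_apply _ _
    rw [e] at hb
    linarith
  obtain ⟨φ, u, h1, h2⟩ := geometric_hahn_banach_point_closed hK isClosed_closure h0
  obtain ⟨z, rfl⟩ := hrefl φ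
  rw [map_zero] at h1
  have hev : ∀ᶠ n in atTop, f n z < u := (hf z).eventually (gt_mem_nhds h1)
  obtain ⟨N, hN⟩ := eventually_atTop.1 hev
  let a : ℕ →₀ ℝ := ∑ i ∈ Finset.range M, Finsupp.single (N + i) (1 / (M : ℝ))
  have hLa : L a = ∑ i ∈ Finset.range M, (1 / (M : ℝ)) • f (N + i) := by
    simp only [a, L, map_sum, Finsupp.linearCombination_single]
  have haW : a ∈ W := by
    have hval : ∀ n, a n = if n ∈ (Finset.range M).image (fun i => N + i) then 1 / (M : ℝ) else 0 := by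
      intro n
      simp only [a, Finsupp.finsetSum_apply, Finsupp.single_apply]
      by_cases hn : n ∈ (Finset.range M).image (fun i => N + i)
      · rw [if_pos hn]
        obtain ⟨i, hi, rfl⟩ := Finset.mem_image.1 hn
        rw [Finset.sum_eq_single i]
        · simp
        · intro j _ hj
          rw [if_neg]; omega
        · intro h; exact absurd hi h
      · rw [if_neg hn]
        refine Finset.sum_eq_zero fun i hi => ?_
        rw [if_neg]
        intro h
        exact hn (Finset.mem_image.2 ⟨i, hi, h⟩)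
    refine ⟨fun n => ?_, fun n => ?_, ?_⟩
    · rw [hval]; split_ifs <;> positivity
    · rw [hval]; split_ifs
      · exact le_rfl
      · positivity
    · rw [hs]
      simp only [a, map_sum, Finsupp.linearCombination_single, smul_eq_mul, mul_one,
        Finset.sum_const, Finset.card_range, nsmul_eq_mul]
      field_simp
  have h3 := h2 _ (subset_closure ⟨a, haW, rfl⟩)
  rw [hLa, NormedSpace.dual_def] at h3
  have h4 : (∑ i ∈ Finset.range M, (1 / (M : ℝ)) • f (N + i)) z =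
      ∑ i ∈ Finset.range M, (1 / (M : ℝ)) * f (N + i) z := by
    rw [_root_.sum_apply]
    rfl
  rw [h4] at h3
  have h5 : ∑ i ∈ Finset.range M, (1 / (M : ℝ)) * f (N + i) z ≤
      ∑ i ∈ Finset.range M, (1 / (M : ℝ)) * u := by
    refine Finset.sum_le_sum fun i _ => ?_
    exact mul_le_mul_of_nonneg_left (hN _ (Nat.le_add_right _ _)).le (by positivity)
  rw [Finset.sum_const, Finset.card_range, nsmul_eq_mul] at h5
  have h6 : (M : ℝ) * (1 / (M : ℝ) * u) = u := by field_simp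
  linarith

/-- The mass estimate. -/
theorem mass_le {C : Set X} {D : ℝ} (hb : ∀ c ∈ C, ‖c‖ ≤ D) {y : X} (hy : y ∈ C) {ε δ r : ℝ}
    (hε : 0 < ε) (hδ : 0 < δ) (hr : 0 < r) {M : ℕ} (hM : 0 < M)
    (f : ℕ → X →L[ℝ] ℝ) (p : ℕ → X) (h1 : ∀ n, 1 / 2 ≤ f n (p n))
    (h2 : ∀ n, ∀ c ∈ C, f n c ≤ f n y + ε) (h3 : ∀ m n, m < n → |f n (p m)| ≤ 1 / 4)
    (a : ℕ →₀ ℝ) (ha0 : ∀ n, 0 ≤ a n) (haM : ∀ n, a n ≤ 1 / (M : ℝ))
    (ha1 : (a.sum fun _ t => t) = 1) (hn : ‖a.sum fun n t => t • f n‖ ≤ δ)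
    (x : X) (A : Finset ℕ) (hA : A ⊆ a.support) (hAC : ∀ n ∈ A, x + r • p n ∈ C) :
    ∑ n ∈ A, a n ≤ 1 / (M : ℝ) + 4 / r * (ε + δ * (2 * D)) := by
  have hD : 0 ≤ D := (norm_nonneg y).trans (hb y hy)
  have hpos : 0 ≤ 1 / (M : ℝ) + 4 / r * (ε + δ * (2 * D)) := by positivity
  rcases A.eq_empty_or_nonempty with rfl | hne
  · simpa using hpos
  · set j := A.min' hne with hj
    have hjA : j ∈ A := A.min'_mem hne
    set c := x + r • p j with hcdef
    have hcC : c ∈ C := hAC j hjA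
    have key1 : ∀ n, f n (c - y) ≤ ε := by
      intro n
      have := h2 n c hcC
      rw [map_sub]; linarith
    have key2 : ∀ n ∈ A, n ≠ j → f n (c - y) ≤ ε - r / 4 := by
      intro n hnA hnj
      have hlt : j < n := lt_of_le_of_ne (A.min'_le n hnA) (Ne.symm hnj)
      have e1 := h2 n _ (hAC n hnA)
      have e2 := (abs_le.1 (h3 j n hlt)).2
      have e3 := h1 n
      have e4 : f n (c - y) = f n (x + r • p n) - f n y - r * f n (p n) + r * f n (p j) := by
        rw [hcdef]; simp only [map_sub, map_add, map_smul, smul_eq_mul]; ring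
      rw [e4]
      have e5 : r * f n (p j) ≤ r * (1 / 4) := mul_le_mul_of_nonneg_left e2 hr.le
      have e6 : r * (1 / 2) ≤ r * f n (p n) := mul_le_mul_of_nonneg_left e3 hr.le
      linarith
    have hsum1 : ∑ n ∈ a.support, a n = 1 := ha1
    have hval : (a.sum fun n t => t • f n) (c - y) = ∑ n ∈ a.support, a n * f n (c - y) := by
      rw [Finsupp.sum, _root_.sum_apply]; rfl
    have hlow : -(δ * (2 * D)) ≤ ∑ n ∈ a.support, a n * f n (c - y) := by
      rw [← hval]
      have h := (a.sum fun n t => t • f n).le_opNorm (c - y)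
      have hcy : ‖c - y‖ ≤ 2 * D := by
        refine (norm_sub_le _ _).trans ?_
        have := hb c hcC; have := hb y hy; linarith
      have h' : ‖(a.sum fun n t => t • f n) (c - y)‖ ≤ δ * (2 * D) :=
        h.trans (mul_le_mul hn hcy (norm_nonneg _) hδ.le)
      rw [Real.norm_eq_abs] at h'
      exact (abs_le.1 h').1
    have hup : ∑ n ∈ a.support, a n * f n (c - y) ≤ ε - (r / 4) * ∑ n ∈ A.erase j, a n := by
      have hsub : A.erase j ⊆ a.support := (Finset.erase_subset _ _).trans hA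
      rw [← Finset.sum_sdiff hsub]
      have q1 : ∑ n ∈ a.support \ A.erase j, a n * f n (c - y) ≤
          ∑ n ∈ a.support \ A.erase j, a n * ε :=
        Finset.sum_le_sum fun n _ => mul_le_mul_of_nonneg_left (key1 n) (ha0 n)
      have q2 : ∑ n ∈ A.erase j, a n * f n (c - y) ≤ ∑ n ∈ A.erase j, a n * (ε - r / 4) :=
        Finset.sum_le_sum fun n hn => mul_le_mul_of_nonneg_left
          (key2 n (Finset.mem_of_mem_erase hn) (Finset.ne_of_mem_erase hn)) (ha0 n)
      have q3 : ∑ n ∈ a.support \ A.erase j, a n + ∑ n ∈ A.erase j, a n = 1 := by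
        rw [Finset.sum_sdiff hsub]; exact hsum1
      rw [← Finset.sum_mul] at q1 q2
      have q4 : (∑ n ∈ a.support \ A.erase j, a n) * ε + (∑ n ∈ A.erase j, a n) * (ε - r / 4) =
          ε - (r / 4) * ∑ n ∈ A.erase j, a n := by
        have : (∑ n ∈ a.support \ A.erase j, a n) = 1 - ∑ n ∈ A.erase j, a n := by linarith
        rw [this]; ring
      linarith
    have hfin : (r / 4) * ∑ n ∈ A.erase j, a n ≤ ε + δ * (2 * D) := by linarith
    have hfin2 : ∑ n ∈ A.erase j, a n ≤ 4 / r * (ε + δ * (2 * D)) := by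
      have : ∑ n ∈ A.erase j, a n = 4 / r * ((r / 4) * ∑ n ∈ A.erase j, a n) := by
        field_simp
      rw [this]
      exact mul_le_mul_of_nonneg_left hfin (by positivity)
    have hsplit : ∑ n ∈ A, a n = a j + ∑ n ∈ A.erase j, a n := (Finset.add_sum_erase A _ hjA).symm
    rw [hsplit]
    exact add_le_add (haM j) hfin2

end Pool.Agent.U320.HN
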