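import Mathlib
import Pool.Agent.U320.HN.Seq

/-!
In a separable reflexive Banach space every closed convex set with empty interior is Haar null.
-/

set_option autoImplicit false

namespace Pool.Agent.U320.HN

open Set Filter Topology TopologicalSpace MeasureTheory

variable {X : Type*} [NormedAddCommGroup X] [NormedSpace ℝ X]

theorem small_weights [CompleteSpace X] [SeparableSpace X]
    (hrefl : Function.Surjective (NormedSpace.inclusionInDoubleDual ℝ X))
    {C : Set X} (hc : IsClosed C) (hconv : Convex ℝ C) {D : ℝ} (hb : ∀ c ∈ C, ‖c‖ ≤ D)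
    (hint : interior C = ∅) {r ε : ℝ} (hr : 0 < r) (hε : 0 < ε) :
    ∃ (p : ℕ → X) (a : ℕ →₀ ℝ), (∀ n, ‖p n‖ ≤ r) ∧ (∀ n, 0 ≤ a n) ∧
      (a.sum fun _ t => t) = 1 ∧
      ∀ x, ∀ A ⊆ a.support, (∀ n ∈ A, x + p n ∈ C) → ∑ n ∈ A, a n ≤ ε := by
  classical
  rcases C.eq_empty_or_nonempty with rfl | hne
  · refine ⟨fun _ => 0, Finsupp.single 0 1, fun n => by simpa using hr.le, fun n => ?_, by simp, ?_⟩
    · rw [Finsupp.single_apply]; split_ifs <;> norm_num
    · intro x A _ hA
      have : A = ∅ := Finset.eq_empty_of_forall_notMem fun n hn => (hA n hn)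
      rw [this]; simpa using hε.le
  obtain ⟨y, hy, hq⟩ := exists_quasi hc hconv hb hne
  obtain ⟨M0, hM0⟩ := exists_nat_one_div_lt (half_pos hε)
  set M : ℕ := M0 + 1 with hMdef
  have hM : 0 < M := Nat.succ_pos _
  have hM' : (0 : ℝ) < M := by exact_mod_cast hM
  have hMε : 1 / (M : ℝ) ≤ ε / 2 := by
    have : (M : ℝ) = (M0 : ℝ) + 1 := by rw [hMdef]; push_cast; ring
    rw [this]; exact hM0.le
  by_cases hnc : ∀ f : X →L[ℝ] ℝ, (∀ c ∈ C, f c = f y) → f = 0
  · have hD : 0 ≤ D := (norm_nonneg y).trans (hb y hy)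
    have hε' : 0 < ε * r / 16 := by positivity
    have hδ : 0 < ε * r / (32 * (D + 1)) := by positivity
    obtain ⟨f, p, hp1, h1, h2, h3, h4⟩ := exists_seq hc hconv hint hy hq hnc hε'
    obtain ⟨a, ha0, haM, ha1, hn⟩ := exists_weights hrefl f h4 hM hδ
    refine ⟨fun n => r • p n, a, fun n => ?_, ha0, ha1, fun x A hA hAC => ?_⟩
    · rw [norm_smul, Real.norm_of_nonneg hr.le]
      exact mul_le_of_le_one_right hr.le (hp1 n)
    · refine (mass_le hb hy hε' hδ hr hM f p h1 h2 h3 a ha0 haM ha1 hn x A hA hAC).trans ?_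
      have e1 : 4 / r * (ε * r / 16 + ε * r / (32 * (D + 1)) * (2 * D)) =
          ε / 4 + ε / 4 * (D / (D + 1)) := by
        field_simp; ring
      rw [e1]
      have e2 : D / (D + 1) ≤ 1 := by rw [div_le_one (by linarith)]; linarith
      have e3 : ε / 4 * (D / (D + 1)) ≤ ε / 4 := mul_le_of_le_one_right (by positivity) e2
      linarith
  · push Not at hnc
    obtain ⟨f, hf, hf0⟩ := hnc
    obtain ⟨v, hv⟩ : ∃ v, f v ≠ 0 := by
      by_contra h
      push Not at h
      exact hf0 (ContinuousLinearMap.ext h)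
    have hv0 : v ≠ 0 := by rintro rfl; simp at hv
    have hvn : 0 < ‖v‖ := norm_pos_iff.2 hv0
    refine ⟨fun n => (r / ((n : ℝ) + 1)) • (‖v‖⁻¹ • v),
      ∑ i ∈ Finset.range M, Finsupp.single i (1 / (M : ℝ)), fun n => ?_, ?_, ?_, ?_⟩
    · rw [norm_smul, norm_smul, norm_inv, norm_norm, inv_mul_cancel₀ hvn.ne', mul_one,
        Real.norm_of_nonneg (by positivity)]
      apply div_le_self hr.le
      have : (0 : ℝ) ≤ n := Nat.cast_nonneg n
      linarith
    · intro n
      rw [Finsupp.finsetSum_apply]
      refine Finset.sum_nonneg fun i _ => ?_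
      rw [Finsupp.single_apply]; split_ifs <;> positivity
    · have hs : ∀ a : ℕ →₀ ℝ, (a.sum fun _ t => t) =
          Finsupp.linearCombination ℝ (fun _ : ℕ => (1 : ℝ)) a := by
        intro a
        rw [Finsupp.linearCombination_apply]
        simp
      rw [hs]
      simp only [map_sum, Finsupp.linearCombination_single, smul_eq_mul, mul_one,
        Finset.sum_const, Finset.card_range, nsmul_eq_mul]
      field_simp
    · intro x A _ hA
      have hval : ∀ n, (∑ i ∈ Finset.range M, Finsupp.single i (1 / (M : ℝ))) n ≤ 1 / (M : ℝ) := by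
        intro n
        rw [Finsupp.finsetSum_apply]
        simp only [Finsupp.single_apply]
        rw [Finset.sum_ite_eq' (Finset.range M) n]
        split_ifs
        · exact le_rfl
        · positivity
      have hcard : A.card ≤ 1 := by
        rw [Finset.card_le_one]
        intro i hi j hj
        have e1 := hf _ (hA i hi)
        have e2 := hf _ (hA j hj)
        rw [map_add, map_smul, map_smul, smul_eq_mul, smul_eq_mul] at e1 e2
        have e3 : r / ((i : ℝ) + 1) * (‖v‖⁻¹ * f v) = r / ((j : ℝ) + 1) * (‖v‖⁻¹ * f v) := by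
          linarith
        have e4 : ‖v‖⁻¹ * f v ≠ 0 := mul_ne_zero (inv_ne_zero hvn.ne') hv
        have e5 := mul_right_cancel₀ e4 e3
        have hi1 : ((i : ℝ) + 1) ≠ 0 := by positivity
        have hj1 : ((j : ℝ) + 1) ≠ 0 := by positivity
        rw [div_eq_div_iff hi1 hj1] at e5
        have e6 := mul_left_cancel₀ hr.ne' e5
        have : (i : ℝ) = j := by linarith
        exact_mod_cast this
      calc ∑ n ∈ A, (∑ i ∈ Finset.range M, Finsupp.single i (1 / (M : ℝ))) n
          ≤ ∑ n ∈ A, 1 / (M : ℝ) := Finset.sum_le_sum fun n _ => hval n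
        _ = (A.card : ℝ) * (1 / (M : ℝ)) := by rw [Finset.sum_const, nsmul_eq_mul]
        _ ≤ 1 * (1 / (M : ℝ)) := by
            refine mul_le_mul_of_nonneg_right ?_ (by positivity)
            exact_mod_cast hcard
        _ ≤ ε := by rw [one_mul]; linarith

/-- The finitely supported measure attached to weights. -/
noncomputable def wm (a : ℕ →₀ ℝ) : Measure ℕ :=
  ∑ n ∈ a.support, ENNReal.ofReal (a n) • Measure.dirac n

theorem wm_apply (a : ℕ →₀ ℝ) (ha : ∀ n, 0 ≤ a n) (T : Set ℕ) [DecidablePred (· ∈ T)] :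
    wm a T = ENNReal.ofReal (∑ n ∈ a.support.filter (· ∈ T), a n) := by
  rw [wm, Measure.finsetSum_apply, Finset.sum_filter, ENNReal.ofReal_sum_of_nonneg]
  · refine Finset.sum_congr rfl fun n _ => ?_
    rw [Measure.smul_apply, Measure.dirac_apply, smul_eq_mul]
    by_cases h : n ∈ T
    · simp [h]
    · simp [h]
  · intro n _
    split_ifs
    · exact ha n
    · exact le_rfl

theorem wm_prob (a : ℕ →₀ ℝ) (ha : ∀ n, 0 ≤ a n) (h1 : (a.sum fun _ t => t) = 1) :
    IsProbabilityMeasure (wm a) := by
  classical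
  constructor
  rw [wm_apply a ha]
  have : ∑ n ∈ a.support.filter (· ∈ (univ : Set ℕ)), a n = 1 := by
    rw [← h1, Finsupp.sum]
    congr 1
    simp
  rw [this, ENNReal.ofReal_one]

theorem small_measure [CompleteSpace X] [SeparableSpace X]
    (hrefl : Function.Surjective (NormedSpace.inclusionInDoubleDual ℝ X))
    {C : Set X} (hc : IsClosed C) (hconv : Convex ℝ C) {D : ℝ} (hb : ∀ c ∈ C, ‖c‖ ≤ D)
    (hint : interior C = ∅) {r ε : ℝ} (hr : 0 < r) (hε : 0 < ε) :
    ∃ (p : ℕ → X) (ν : Measure ℕ), IsProbabilityMeasure ν ∧ (∀ n, ‖p n‖ ≤ r) ∧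
      ∀ x, ν {n | x + p n ∈ C} ≤ ENNReal.ofReal ε := by
  classical
  obtain ⟨p, a, h1, h2, h3, h4⟩ := small_weights hrefl hc hconv hb hint hr hε
  refine ⟨p, wm a, wm_prob a h2 h3, h1, fun x => ?_⟩
  rw [wm_apply a h2]
  refine ENNReal.ofReal_le_ofReal (h4 x _ (Finset.filter_subset _ _) ?_)
  intro n hn
  exact (Finset.mem_filter.1 hn).2

/-- Resampling one coordinate preserves a product measure. -/
theorem map_update (ν : ℕ → Measure ℕ) [∀ k, IsProbabilityMeasure (ν k)] (k : ℕ) :
    ((Measure.infinitePi ν).prod (ν k)).map (fun q : (ℕ → ℕ) × ℕ => Function.update q.1 k q.2) =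
      Measure.infinitePi ν := by
  classical
  have hmeas : Measurable (fun q : (ℕ → ℕ) × ℕ => Function.update q.1 k q.2) := by
    rw [measurable_pi_iff]
    intro i
    by_cases h : i = k
    · subst h
      simpa using measurable_snd
    · simp only [Function.update_of_ne h]
      exact (measurable_pi_apply i).comp measurable_fst
  apply Measure.eq_infinitePi
  intro s t ht
  rw [Measure.map_apply hmeas (MeasurableSet.pi s.countable_toSet fun i _ => ht i)]
  by_cases hk : k ∈ s
  · have hset : (fun q : (ℕ → ℕ) × ℕ => Function.update q.1 k q.2) ⁻¹' (Set.pi s t) =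
        (Set.pi (s.erase k : Finset ℕ) t) ×ˢ (t k) := by
      ext q
      simp only [mem_preimage, Set.mem_pi, mem_prod, Finset.coe_erase, Set.mem_sdiff,
        Set.mem_singleton_iff, Finset.mem_coe]
      constructor
      · intro h
        refine ⟨fun i hi => ?_, ?_⟩
        · have := h i hi.1
          rwa [Function.update_of_ne hi.2] at this
        · have := h k hk
          rwa [Function.update_self] at this
      · rintro ⟨h1, h2⟩ i hi
        by_cases hik : i = k
        · subst hik; rwa [Function.update_self]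
        · rw [Function.update_of_ne hik]; exact h1 i ⟨hi, hik⟩
    rw [hset, Measure.prod_prod, Measure.infinitePi_pi ν (fun i _ => ht i),
      Finset.prod_erase_mul _ _ hk]
  · have hset : (fun q : (ℕ → ℕ) × ℕ => Function.update q.1 k q.2) ⁻¹' (Set.pi s t) =
        (Set.pi s t) ×ˢ univ := by
      ext q
      simp only [mem_preimage, Set.mem_pi, mem_prod, mem_univ, and_true, Finset.mem_coe]
      refine forall₂_congr fun i hi => ?_
      have hik : i ≠ k := fun h => hk (h ▸ hi)
      rw [Function.update_of_ne hik]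
    rw [hset, Measure.prod_prod, measure_univ, mul_one, Measure.infinitePi_pi ν (fun i _ => ht i)]

theorem haar_null [CompleteSpace X] [SeparableSpace X] [MeasurableSpace X] [BorelSpace X]
    (hrefl : Function.Surjective (NormedSpace.inclusionInDoubleDual ℝ X))
    {C : Set X} (hc : IsClosed C) (hconv : Convex ℝ C) (hint : interior C = ∅) :
    ∃ μ : Measure X, IsProbabilityMeasure μ ∧ ∀ x : X, μ ((fun y : X => y + x) ⁻¹' C) = 0 := by
  classical
  have : SecondCountableTopology X := UniformSpace.secondCountable_of_separable X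
  let Ck : ℕ → Set X := fun k => C ∩ Metric.closedBall 0 k
  have hCk : ∀ k : ℕ, ∃ (p : ℕ → X) (ν : Measure ℕ), IsProbabilityMeasure ν ∧
      (∀ n, ‖p n‖ ≤ (1 / 2) ^ k) ∧ ∀ x, ν {n | x + p n ∈ Ck k} ≤ ENNReal.ofReal ((1 / 2) ^ k) := by
    intro k
    refine small_measure hrefl (hc.inter Metric.isClosed_closedBall)
      (hconv.inter (convex_closedBall 0 (k : ℝ))) (D := k) ?_ ?_ (by positivity) (by positivity)
    · intro c hcC
      simpa using hcC.2
    · exact subset_eq_empty (interior_mono inter_subset_left) hint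
  choose p ν hν hp hsm using hCk
  have hsum : ∀ ω : ℕ → ℕ, Summable fun k => p k (ω k) := fun ω =>
    Summable.of_norm_bounded (g := fun k => (1 / 2 : ℝ) ^ k) summable_geometric_two
      fun k => hp k _
  let S : (ℕ → ℕ) → X := fun ω => ∑' k, p k (ω k)
  have hSm : Measurable S := by
    refine measurable_of_tendsto_metrizable (f := fun (N : ℕ) (ω : ℕ → ℕ) =>
      ∑ k ∈ Finset.range N, p k (ω k)) ?_ ?_
    · intro N
      refine Finset.measurable_sum _ fun k _ => ?_
      exact (measurable_from_top (f := p k)).comp (measurable_pi_apply k)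
    · rw [tendsto_pi_nhds]
      intro ω
      exact (hsum ω).hasSum.tendsto_sum_nat
  let P : Measure (ℕ → ℕ) := Measure.infinitePi ν
  have hPp : IsProbabilityMeasure P := inferInstanceAs (IsProbabilityMeasure (Measure.infinitePi ν))
  refine ⟨P.map S, Measure.isProbabilityMeasure_map hSm.aemeasurable, fun x => ?_⟩
  have hCm : MeasurableSet ((fun y : X => y + x) ⁻¹' C) :=
    hc.measurableSet.preimage (measurable_add_const x)
  rw [Measure.map_apply hSm hCm]
  have hbound : ∀ k : ℕ, P {ω | S ω + x ∈ Ck k} ≤ ENNReal.ofReal ((1 / 2) ^ k) := by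
    intro k
    have hCkm : MeasurableSet (Ck k) := (hc.inter Metric.isClosed_closedBall).measurableSet
    have hT : MeasurableSet {ω | S ω + x ∈ Ck k} := (hSm.add_const x) hCkm
    have hmeas : Measurable (fun q : (ℕ → ℕ) × ℕ => Function.update q.1 k q.2) := by
      rw [measurable_pi_iff]
      intro i
      by_cases h : i = k
      · subst h
        simpa using measurable_snd
      · simp only [Function.update_of_ne h]
        exact (measurable_pi_apply i).comp measurable_fst
    have e1 : P {ω | S ω + x ∈ Ck k} =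
        (P.prod (ν k)) ((fun q : (ℕ → ℕ) × ℕ => Function.update q.1 k q.2) ⁻¹'
          {ω | S ω + x ∈ Ck k}) := by
      conv_lhs => rw [show P = _ from (map_update ν k).symm]
      rw [Measure.map_apply hmeas hT]
    rw [e1, Measure.prod_apply (hmeas hT)]
    have hle : ∀ ω : ℕ → ℕ, ν k (Prod.mk ω ⁻¹' ((fun q : (ℕ → ℕ) × ℕ =>
        Function.update q.1 k q.2) ⁻¹' {ω | S ω + x ∈ Ck k})) ≤ ENNReal.ofReal ((1 / 2) ^ k) := by
      intro ω
      refine le_trans (measure_mono ?_) (hsm k (S ω - p k (ω k) + x))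
      intro n hn
      have hn' : S (Function.update ω k n) + x ∈ Ck k := hn
      have e2 : S (Function.update ω k n) = S ω - p k (ω k) + p k n := by
        have h1 := (hsum (Function.update ω k n)).hasSum
        have h2 := (hsum ω).hasSum.update k (p k n)
        have e3 : (Function.update (fun i => p i (ω i)) k (p k n)) =
            fun i => p i (Function.update ω k n i) := by
          funext i
          by_cases hi : i = k
          · subst hi; simp
          · simp [Function.update_of_ne hi]
        rw [e3] at h2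
        have h3 := h1.unique h2
        show (∑' i, p i (Function.update ω k n i)) = _
        rw [h3]
        show p k n - p k (ω k) + S ω = _
        abel
      rw [e2] at hn'
      show S ω - p k (ω k) + x + p k n ∈ Ck k
      have e4 : S ω - p k (ω k) + x + p k n = S ω - p k (ω k) + p k n + x := by abel
      rw [e4]; exact hn'
    calc ∫⁻ ω, ν k (Prod.mk ω ⁻¹' ((fun q : (ℕ → ℕ) × ℕ =>
        Function.update q.1 k q.2) ⁻¹' {ω | S ω + x ∈ Ck k})) ∂P
        ≤ ∫⁻ _, ENNReal.ofReal ((1 / 2) ^ k) ∂P := lintegral_mono hle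
      _ = ENNReal.ofReal ((1 / 2) ^ k) := by rw [lintegral_const, measure_univ, mul_one]
  have hzero : ∀ m : ℕ, P {ω | S ω + x ∈ Ck m} = 0 := by
    intro m
    have hlim : Tendsto (fun k : ℕ => ENNReal.ofReal ((1 / 2) ^ k)) atTop (𝓝 0) := by
      have := ENNReal.tendsto_ofReal
        (tendsto_pow_atTop_nhds_zero_of_lt_one (r := (1 / 2 : ℝ)) (by norm_num) (by norm_num))
      simpa using this
    refine le_antisymm (ge_of_tendsto hlim ?_) bot_le
    filter_upwards [eventually_ge_atTop m] with k hk
    refine le_trans (measure_mono ?_) (hbound k)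
    intro ω hω
    refine ⟨hω.1, ?_⟩
    have : (m : ℝ) ≤ k := by exact_mod_cast hk
    exact Metric.closedBall_subset_closedBall this hω.2
  have hcover : S ⁻¹' ((fun y : X => y + x) ⁻¹' C) ⊆ ⋃ m : ℕ, {ω | S ω + x ∈ Ck m} := by
    intro ω hω
    obtain ⟨m, hm⟩ := exists_nat_ge ‖S ω + x‖
    exact mem_iUnion.2 ⟨m, hω, by simpa using hm⟩
  refine le_antisymm ((measure_mono hcover).trans ?_) bot_le
  refine (measure_iUnion_le _).trans ?_
  simp [hzero]

end Pool.Agent.U320.HN
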